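import Pool.Agent.Helper25.FN.Spec

/-!
# FN, part JOP: the operator `Nop l` is inverted by an integral along rays
-/

set_option autoImplicit false

namespace Pool.Agent.Helper60.FN.JOP

open MeasureTheory Set
open scoped ContDiff Topology
open Pool.Agent.Helper25.FN
open Pool.Agent.Helper25.FB.Inj (Entire)

theorem nm_nonneg {n : ℕ} (z : V n) : 0 ≤ nm z := Real.sqrt_nonneg _

theorem nm_smul {n : ℕ} (t : ℝ) (ht : 0 ≤ t) (z : V n) : nm ((t : ℂ) • z) = t * nm z := by
  unfold nm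
  have h1 : ∀ j, ‖((t : ℂ) • z) j‖ ^ 2 = t ^ 2 * ‖z j‖ ^ 2 := by
    intro j
    simp only [Pi.smul_apply, smul_eq_mul, norm_mul, Complex.norm_real, Real.norm_eq_abs, mul_pow,
      sq_abs]
  simp only [h1, ← Finset.mul_sum]
  rw [Real.sqrt_mul (sq_nonneg t), Real.sqrt_sq ht]

theorem coord_le_nm {n : ℕ} (z : V n) (j : Fin n) : ‖z j‖ ≤ nm z := by
  unfold nm
  rw [← Real.sqrt_sq (norm_nonneg (z j))]
  exact Real.sqrt_le_sqrt (Finset.single_le_sum (f := fun j => ‖z j‖ ^ 2)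
    (fun i _ => sq_nonneg _) (Finset.mem_univ j))

theorem norm_le_nm {n : ℕ} (z : V n) : ‖z‖ ≤ nm z :=
  (pi_norm_le_iff_of_nonneg (nm_nonneg z)).2 (coord_le_nm z)

theorem vec_eq {n : ℕ} (v : V n) : v = ∑ j, v j • (Pi.single j (1 : ℂ) : V n) := by
  ext i
  simp [Finset.sum_apply, Pi.single_apply]

/-- the derivative of an entire function -/
noncomputable def L {n : ℕ} (D : V n → ℂ) (z : V n) : V n →L[ℂ] ℂ :=
  ∑ j, (wd j D z) • (ContinuousLinearMap.proj j : V n →L[ℂ] ℂ)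

theorem L_apply {n : ℕ} (D : V n → ℂ) (z v : V n) : L D z v = ∑ j, wd j D z * v j := by
  unfold L
  simp

theorem hasF (hWD : S_WD) {n : ℕ} {D : V n → ℂ} (hD : Entire D) (z : V n) :
    HasFDerivAt D (L D z) z := by
  have h := (hD z).hasFDerivAt
  have h1 : fderiv ℂ D z = L D z := by
    ext v
    rw [L_apply]
    conv_lhs => rw [vec_eq v]
    rw [map_sum]
    refine Finset.sum_congr rfl fun j _ => ?_
    rw [map_smul, ((hWD n j).2.2.2.2 D hD).2.2.1 z, smul_eq_mul, mul_comm]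
  rwa [h1] at h

theorem wd_cont (hWD : S_WD) {n : ℕ} {D : V n → ℂ} (hD : Entire D) (j : Fin n) :
    Continuous (wd j D) :=
  (((hWD n j).2.2.2.2 D hD).2.1 : Differentiable ℂ (wd j D)).continuous

/-- the integral operator -/
noncomputable def U {n : ℕ} (l : ℝ) (D : V n → ℂ) (z : V n) : ℂ :=
  ∫ t in (0 : ℝ)..1, ((t ^ (l - 1) : ℝ) : ℂ) * D ((t : ℂ) • z)

/-- the derivative of the integrand -/
noncomputable def F' {n : ℕ} (l : ℝ) (D : V n → ℂ) (z : V n) (t : ℝ) : V n →L[ℂ] ℂ :=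
  ∑ j, (((t ^ l : ℝ) : ℂ) * wd j D ((t : ℂ) • z)) • (ContinuousLinearMap.proj j : V n →L[ℂ] ℂ)

theorem F'_apply {n : ℕ} (l : ℝ) (D : V n → ℂ) (z v : V n) (t : ℝ) :
    F' l D z t v = ((t ^ l : ℝ) : ℂ) * ∑ j, wd j D ((t : ℂ) • z) * v j := by
  unfold F'
  simp only [ContinuousLinearMap.sum_apply, ContinuousLinearMap.smul_apply,
    ContinuousLinearMap.proj_apply, smul_eq_mul, Finset.mul_sum]
  exact Finset.sum_congr rfl fun j _ => by ring

theorem rpow_cont {l : ℝ} (hl : 0 ≤ l) : Continuous fun t : ℝ => ((t ^ l : ℝ) : ℂ) :=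
  Complex.continuous_ofReal.comp (continuous_id.rpow_const fun _ => Or.inr hl)

theorem F'_cont (hWD : S_WD) {n : ℕ} {l : ℝ} (hl : 1 ≤ l) {D : V n → ℂ} (hD : Entire D) :
    Continuous fun q : V n × ℝ => F' l D q.1 q.2 := by
  unfold F'
  refine continuous_finsetSum _ fun j _ => ?_
  have h1 : Continuous fun q : V n × ℝ =>
      ((q.2 ^ l : ℝ) : ℂ) * wd j D ((q.2 : ℂ) • q.1) :=
    ((rpow_cont (by linarith)).comp continuous_snd).mul ((wd_cont hWD hD j).comp
      ((Complex.continuous_ofReal.comp continuous_snd).smul continuous_fst))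
  exact h1.smul continuous_const

theorem integrand_cont {n : ℕ} {l : ℝ} (hl : 1 ≤ l) {D : V n → ℂ} (hD : Entire D) (z : V n) :
    Continuous fun t : ℝ => ((t ^ (l - 1) : ℝ) : ℂ) * D ((t : ℂ) • z) :=
  (rpow_cont (by linarith)).mul
    ((hD.continuous).comp (Complex.continuous_ofReal.smul continuous_const))

theorem hasFDerivAt_U (hWD : S_WD) {n : ℕ} {l : ℝ} (hl : 1 ≤ l) {D : V n → ℂ} (hD : Entire D)
    (z : V n) : HasFDerivAt (U l D) (∫ t in (0 : ℝ)..1, F' l D z t) z := by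
  obtain ⟨B, hB⟩ := ((isCompact_closedBall z 1).prod (isCompact_Icc (a := (0 : ℝ)) (b := 1))
    ).exists_bound_of_continuousOn (F'_cont hWD hl hD).continuousOn
  refine intervalIntegral.hasFDerivAt_integral_of_dominated_of_fderiv_le
    (F := fun z t => ((t ^ (l - 1) : ℝ) : ℂ) * D ((t : ℂ) • z)) (F' := F' l D)
    (bound := fun _ => B) (Metric.ball_mem_nhds z one_pos) ?_ ?_ ?_ ?_ ?_ ?_
  · exact Filter.Eventually.of_forall fun x => (integrand_cont hl hD x).aestronglyMeasurable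
  · exact (integrand_cont hl hD z).intervalIntegrable _ _
  · exact ((F'_cont hWD hl hD).comp (continuous_const.prodMk continuous_id)).aestronglyMeasurable
  · refine Filter.Eventually.of_forall fun t ht x hx => ?_
    rw [uIoc_of_le zero_le_one] at ht
    exact hB (x, t) ⟨Metric.ball_subset_closedBall hx, ht.1.le, ht.2⟩
  · exact intervalIntegrable_const
  · refine Filter.Eventually.of_forall fun t ht x _ => ?_
    rw [uIoc_of_le zero_le_one] at ht
    have h1 := ((hasF hWD hD ((t : ℂ) • x)).comp x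
      ((hasFDerivAt_id x).const_smul (t : ℂ))).const_mul ((t ^ (l - 1) : ℝ) : ℂ)
    refine HasFDerivAt.congr_fderiv h1 ?_
    ext v
    have h2 : (t ^ l : ℝ) = t ^ (l - 1) * t := by
      conv_lhs => rw [show l = (l - 1) + 1 by ring, Real.rpow_add_one ht.1.ne']
    rw [F'_apply, h2]
    simp only [ContinuousLinearMap.smul_apply, ContinuousLinearMap.comp_apply, L_apply,
      ContinuousLinearMap.id_apply, smul_eq_mul, Pi.smul_apply]
    push_cast
    rw [mul_assoc, Finset.mul_sum (a := (t : ℂ))]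
    congr 1
    exact Finset.sum_congr rfl fun j _ => by ring

theorem entire_U (hWD : S_WD) {n : ℕ} {l : ℝ} (hl : 1 ≤ l) {D : V n → ℂ} (hD : Entire D) :
    Entire (U l D) := fun z => (hasFDerivAt_U hWD hl hD z).differentiableAt

theorem Nop_U (hWD : S_WD) {n : ℕ} {l : ℝ} (hl : 1 ≤ l) {D : V n → ℂ} (hD : Entire D) (z : V n) :
    Nop l (U l D) z = D z := by
  have hU := hasFDerivAt_U hWD hl hD z
  have hF'int : IntervalIntegrable (F' l D z) volume 0 1 :=
    ((F'_cont hWD hl hD).comp (continuous_const.prodMk continuous_id)).intervalIntegrable _ _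
  have h1 : ∑ j, z j * wd j (U l D) z = ∫ t in (0 : ℝ)..1,
      ((t ^ l : ℝ) : ℂ) * ∑ j, wd j D ((t : ℂ) • z) * z j := by
    have h5 : ∀ Lz : V n →L[ℂ] ℂ, Lz z = ∑ j, z j * Lz (Pi.single j 1) := by
      intro Lz
      conv_lhs => rw [vec_eq z]
      rw [map_sum]
      exact Finset.sum_congr rfl fun j _ => by rw [map_smul, smul_eq_mul]
    have h2 : ∑ j, z j * wd j (U l D) z = (∫ t in (0 : ℝ)..1, F' l D z t) z := by
      rw [h5]
      refine Finset.sum_congr rfl fun j _ => ?_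
      rw [((hWD n j).2.2.2.2 _ (entire_U hWD hl hD)).2.2.1 z, hU.fderiv]
    rw [h2, ContinuousLinearMap.intervalIntegral_apply hF'int]
    exact intervalIntegral.integral_congr fun t _ => F'_apply l D z z t
  have hc1 : Continuous fun t : ℝ => ((l * t ^ (l - 1) : ℝ) : ℂ) * D ((t : ℂ) • z) := by
    have := continuous_const (y := (l : ℂ)).mul (integrand_cont hl hD z)
    refine this.congr fun t => ?_
    show (l : ℂ) * (((t ^ (l - 1) : ℝ) : ℂ) * D ((t : ℂ) • z)) =
      ((l * t ^ (l - 1) : ℝ) : ℂ) * D ((t : ℂ) • z)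
    push_cast; ring
  have hc2 : Continuous fun t : ℝ => ((t ^ l : ℝ) : ℂ) *
      ∑ j, wd j D ((t : ℂ) • z) * z j := by
    refine (rpow_cont (by linarith)).mul (continuous_finsetSum _ fun j _ => ?_)
    exact ((wd_cont hWD hD j).comp
      (Complex.continuous_ofReal.smul continuous_const)).mul continuous_const
  have hder : ∀ t : ℝ, HasDerivAt (fun t : ℝ => ((t ^ l : ℝ) : ℂ) * D ((t : ℂ) • z))
      (((l * t ^ (l - 1) : ℝ) : ℂ) * D ((t : ℂ) • z) + ((t ^ l : ℝ) : ℂ) *
        ∑ j, wd j D ((t : ℂ) • z) * z j) t := by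
    intro t
    have ha : HasDerivAt (fun t : ℝ => ((t ^ l : ℝ) : ℂ)) ((l * t ^ (l - 1) : ℝ) : ℂ) t :=
      (Real.hasDerivAt_rpow_const (Or.inr hl)).ofReal_comp
    have hb : HasDerivAt (fun t : ℝ => ((t : ℂ) • z)) (((1 : ℝ) : ℂ) • z) t :=
      ((hasDerivAt_id t).ofReal_comp).smul_const z
    have hd := ((hasF hWD hD ((t : ℂ) • z)).restrictScalars ℝ).comp_hasDerivAt t hb
    have he := ha.mul hd
    refine he.congr_deriv ?_
    simp [L_apply]
  have h3 : ∫ t in (0 : ℝ)..1, (((l * t ^ (l - 1) : ℝ) : ℂ) * D ((t : ℂ) • z) +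
      ((t ^ l : ℝ) : ℂ) * ∑ j, wd j D ((t : ℂ) • z) * z j) = D z := by
    rw [intervalIntegral.integral_eq_sub_of_hasDerivAt (fun t _ => hder t)
      ((hc1.add hc2).intervalIntegrable _ _)]
    rw [Real.one_rpow, Real.zero_rpow (by linarith)]
    simp
  unfold Nop
  rw [h1, ← h3, intervalIntegral.integral_add (hc1.intervalIntegrable _ _)
    (hc2.intervalIntegrable _ _)]
  congr 1
  unfold U
  rw [← intervalIntegral.integral_const_mul]
  refine intervalIntegral.integral_congr fun t _ => ?_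
  show (l : ℂ) * (((t ^ (l - 1) : ℝ) : ℂ) * D ((t : ℂ) • z)) =
      ((l * t ^ (l - 1) : ℝ) : ℂ) * D ((t : ℂ) • z)
  push_cast; ring

/-- the estimate of the integrand -/
theorem pow_bound {l : ℝ} {s : ℤ} (hs : 1 ≤ (s : ℝ) + l) (hl : 1 ≤ l) {t R : ℝ} (ht : 0 < t)
    (ht1 : t ≤ 1) (hR : 0 ≤ R) : t ^ (l - 1) * (1 + t * R) ^ s ≤ (1 + R) ^ s := by
  have h1 : 0 < 1 + R := by linarith
  have h2 : 0 < 1 + t * R := by positivity
  rcases le_or_gt 0 s with h | h
  · have h3 : (1 + t * R) ^ s ≤ (1 + R) ^ s := by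
      refine zpow_le_zpow_left₀ h h2.le ?_
      nlinarith
    have h4 : t ^ (l - 1) ≤ 1 := Real.rpow_le_one ht.le ht1 (by linarith)
    calc t ^ (l - 1) * (1 + t * R) ^ s ≤ 1 * (1 + R) ^ s :=
          mul_le_mul h4 h3 (zpow_nonneg h2.le _) zero_le_one
      _ = (1 + R) ^ s := one_mul _
  · have h3 : (1 + t * R) ^ s ≤ (t * (1 + R)) ^ s := by
      have h5 : t * (1 + R) ≤ 1 + t * R := by nlinarith
      obtain ⟨m, hm⟩ : ∃ m : ℕ, s = -(m : ℤ) := ⟨(-s).toNat, by omega⟩
      rw [hm, zpow_neg, zpow_neg, zpow_natCast, zpow_natCast]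
      exact inv_anti₀ (by positivity) (pow_le_pow_left₀ (by positivity) h5 m)
    calc t ^ (l - 1) * (1 + t * R) ^ s ≤ t ^ (l - 1) * (t * (1 + R)) ^ s :=
          mul_le_mul_of_nonneg_left h3 (Real.rpow_nonneg ht.le _)
      _ = (t ^ (l - 1 + s)) * (1 + R) ^ s := by
          rw [mul_zpow, ← mul_assoc, Real.rpow_add ht, Real.rpow_intCast]
      _ ≤ 1 * (1 + R) ^ s := by
          refine mul_le_mul_of_nonneg_right ?_ (zpow_nonneg h1.le _)
          exact Real.rpow_le_one ht.le ht1 (by linarith)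
      _ = (1 + R) ^ s := one_mul _

theorem norm_U {n : ℕ} {P : Pol n} {A η : ℝ} {Φ : V n → ℝ} (hA : 0 < A) (hW : Wt P A η Φ) {l : ℝ}
    (hl : 1 ≤ l) {s : ℤ} (hs : 1 ≤ (s : ℝ) + l) {D : V n → ℂ} (hD : Gr Φ s D) :
    ∃ C : ℝ, ∀ z, ‖U l D z‖ ≤ C * (1 + nm z) ^ (s - 1) * Real.exp (Φ z) := by
  obtain ⟨hDe, C, hC⟩ := hD
  obtain ⟨M, hM⟩ := (isCompact_closedBall (0 : V n) 1).exists_bound_of_continuousOn
    hW.smooth.continuous.continuousOn
  have hM' : ∀ z : V n, nm z ≤ 1 → |Φ z| ≤ M := fun z hz =>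
    hM z (by rw [mem_closedBall_zero_iff]; exact (norm_le_nm z).trans hz)
  have hn0 : nm (0 : V n) = 0 := by simp [nm]
  have hM0 : 0 ≤ M := (abs_nonneg _).trans (hM' 0 (by rw [hn0]; exact zero_le_one))
  have hC0 : 0 ≤ C := by
    have h1 := (norm_nonneg _).trans (hC 0)
    rw [hn0] at h1
    simp only [add_zero, one_zpow, mul_one] at h1
    exact nonneg_of_mul_nonneg_left h1 (Real.exp_pos _)
  -- pointwise bound
  have hpt : ∀ z : V n, ∀ t ∈ Ioc (0 : ℝ) 1, ∀ E : ℝ, Real.exp (Φ ((t : ℂ) • z)) ≤ E →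
      ‖((t ^ (l - 1) : ℝ) : ℂ) * D ((t : ℂ) • z)‖ ≤ C * (1 + nm z) ^ s * E := by
    intro z t ht E hE
    rw [norm_mul, Complex.norm_real, Real.norm_eq_abs, abs_of_nonneg (Real.rpow_nonneg ht.1.le _)]
    have h1 := hC ((t : ℂ) • z)
    rw [nm_smul t ht.1.le] at h1
    have h2 := pow_bound hs hl ht.1 ht.2 (nm_nonneg z)
    have h3 : 0 ≤ (1 + nm z) ^ s := zpow_nonneg (by have := nm_nonneg z; linarith) _
    have h4 : 0 ≤ (1 + t * nm z) ^ s :=
      zpow_nonneg (by have := nm_nonneg z; have := mul_nonneg ht.1.le this; linarith) _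
    calc t ^ (l - 1) * ‖D ((t : ℂ) • z)‖
        ≤ t ^ (l - 1) * (C * (1 + t * nm z) ^ s * Real.exp (Φ ((t : ℂ) • z))) :=
          mul_le_mul_of_nonneg_left h1 (Real.rpow_nonneg ht.1.le _)
      _ = (t ^ (l - 1) * (1 + t * nm z) ^ s) * (C * Real.exp (Φ ((t : ℂ) • z))) := by ring
      _ ≤ (1 + nm z) ^ s * (C * E) :=
          mul_le_mul h2 (mul_le_mul_of_nonneg_left hE hC0)
            (mul_nonneg hC0 (Real.exp_pos _).le) h3
      _ = C * (1 + nm z) ^ s * E := by ring
  refine ⟨C * Real.exp M * (2 / A) + 2 * C * Real.exp (2 * M), fun z => ?_⟩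
  have hz0 := nm_nonneg z
  have h10 : 0 < 1 + nm z := by linarith
  have hsplit : (1 + nm z) ^ s = (1 + nm z) ^ (s - 1) * (1 + nm z) := by
    rw [← zpow_add_one₀ h10.ne', sub_add_cancel]
  have hp : 0 ≤ (1 + nm z) ^ (s - 1) := zpow_nonneg h10.le _
  have hint : ∀ g : ℝ → ℝ, Continuous g → (∀ t ∈ Ioc (0 : ℝ) 1,
      ‖((t ^ (l - 1) : ℝ) : ℂ) * D ((t : ℂ) • z)‖ ≤ g t) → ‖U l D z‖ ≤ ∫ t in (0 : ℝ)..1, g t := by
    intro g hg h
    unfold U
    exact intervalIntegral.norm_integral_le_of_norm_le zero_le_one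
      (Filter.Eventually.of_forall fun t ht => h t ht) (hg.intervalIntegrable _ _)
  rcases le_or_gt 1 (nm z) with h | h
  · -- outside the unit ball
    have hΦ : A * nm z ≤ Φ z := hW.low z h
    have hΦ0 : 0 < Φ z := lt_of_lt_of_le (by positivity) hΦ
    have hE : ∀ t ∈ Ioc (0 : ℝ) 1, Real.exp (Φ ((t : ℂ) • z)) ≤
        Real.exp M * Real.exp (t * Φ z) := by
      intro t ht
      rw [← Real.exp_add]
      refine Real.exp_le_exp.2 ?_
      rcases le_or_gt 1 (nm ((t : ℂ) • z)) with h1 | h1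
      · have h2 := hW.hom ((t : ℂ) • z) (1 / t) h1 (by rw [le_div_iff₀ ht.1]; linarith [ht.2])
        have h3 : (1 / t : ℝ) • ((t : ℂ) • z) = z := by
          ext j
          simp only [Pi.smul_apply, smul_eq_mul, Complex.real_smul]
          have : (t : ℂ) ≠ 0 := by exact_mod_cast ht.1.ne'
          push_cast
          field_simp
        rw [h3] at h2
        rw [h2]
        have h4 : t * (1 / t * Φ ((t : ℂ) • z)) = Φ ((t : ℂ) • z) := by
          have := ht.1.ne'
          field_simp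
        rw [h4]
        linarith
      · have h2 := le_of_abs_le (hM' _ h1.le)
        have h3 : 0 ≤ t * Φ z := mul_nonneg ht.1.le hΦ0.le
        linarith
    have h1 := hint (fun t => C * (1 + nm z) ^ s * (Real.exp M * Real.exp (t * Φ z)))
      (by fun_prop) (fun t ht => hpt z t ht _ (hE t ht))
    have h2 : ∫ t in (0 : ℝ)..1, C * (1 + nm z) ^ s * (Real.exp M * Real.exp (t * Φ z)) =
        C * (1 + nm z) ^ s * Real.exp M * ((Real.exp (Φ z) - 1) / Φ z) := by
      have h3 : ∀ t : ℝ, HasDerivAt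
          (fun t => C * (1 + nm z) ^ s * Real.exp M * (Real.exp (t * Φ z) / Φ z))
          (C * (1 + nm z) ^ s * (Real.exp M * Real.exp (t * Φ z))) t := by
        intro t
        have h4 : HasDerivAt (fun t => Real.exp (t * Φ z)) (Real.exp (t * Φ z) * (1 * Φ z)) t :=
          ((hasDerivAt_id t).mul_const (Φ z)).exp
        refine ((h4.div_const (Φ z)).const_mul _).congr_deriv ?_
        field_simp
      rw [intervalIntegral.integral_eq_sub_of_hasDerivAt (fun t _ => h3 t)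
        ((by fun_prop : Continuous fun t => C * (1 + nm z) ^ s *
          (Real.exp M * Real.exp (t * Φ z))).intervalIntegrable _ _)]
      simp only [one_mul, zero_mul, Real.exp_zero]
      ring
    have h5 : (Real.exp (Φ z) - 1) / Φ z ≤ Real.exp (Φ z) * (2 / A) / (1 + nm z) := by
      rw [div_le_div_iff₀ hΦ0 h10]
      have h6 : 1 + nm z ≤ 2 / A * Φ z := by
        have : 1 + nm z ≤ 2 * nm z := by linarith
        have h7 : 2 / A * Φ z ≥ 2 / A * (A * nm z) := mul_le_mul_of_nonneg_left hΦ (by positivity)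
        have h8 : 2 / A * (A * nm z) = 2 * nm z := by field_simp
        linarith
      have h9 := Real.exp_pos (Φ z)
      calc (Real.exp (Φ z) - 1) * (1 + nm z) ≤ Real.exp (Φ z) * (1 + nm z) :=
            mul_le_mul_of_nonneg_right (by linarith) h10.le
        _ ≤ Real.exp (Φ z) * (2 / A * Φ z) := mul_le_mul_of_nonneg_left h6 h9.le
        _ = Real.exp (Φ z) * (2 / A) * Φ z := by ring
    calc ‖U l D z‖ ≤ C * (1 + nm z) ^ s * Real.exp M * ((Real.exp (Φ z) - 1) / Φ z) := by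
          rw [← h2]; exact h1
      _ ≤ C * (1 + nm z) ^ s * Real.exp M * (Real.exp (Φ z) * (2 / A) / (1 + nm z)) :=
          mul_le_mul_of_nonneg_left h5 (mul_nonneg (mul_nonneg hC0 (zpow_nonneg h10.le _))
            (Real.exp_pos _).le)
      _ = C * Real.exp M * (2 / A) * (1 + nm z) ^ (s - 1) * Real.exp (Φ z) := by
          rw [hsplit]; field_simp
      _ ≤ (C * Real.exp M * (2 / A) + 2 * C * Real.exp (2 * M)) * (1 + nm z) ^ (s - 1) *
            Real.exp (Φ z) := by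
          refine mul_le_mul_of_nonneg_right (mul_le_mul_of_nonneg_right ?_ hp) (Real.exp_pos _).le
          have : 0 ≤ 2 * C * Real.exp (2 * M) := by positivity
          linarith
  · -- inside the unit ball
    have hE : ∀ t ∈ Ioc (0 : ℝ) 1, Real.exp (Φ ((t : ℂ) • z)) ≤ Real.exp M := by
      intro t ht
      refine Real.exp_le_exp.2 (le_of_abs_le (hM' _ ?_))
      rw [nm_smul t ht.1.le]
      nlinarith [ht.1, ht.2]
    have h1 := hint (fun _ => C * (1 + nm z) ^ s * Real.exp M) continuous_const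
      (fun t ht => hpt z t ht _ (hE t ht))
    rw [intervalIntegral.integral_const, sub_zero, one_smul] at h1
    have h2 : Real.exp M ≤ Real.exp (2 * M) * Real.exp (Φ z) := by
      rw [← Real.exp_add]
      refine Real.exp_le_exp.2 ?_
      have := neg_le_of_abs_le (hM' z h.le)
      linarith
    calc ‖U l D z‖ ≤ C * (1 + nm z) ^ s * Real.exp M := h1
      _ = C * ((1 + nm z) ^ (s - 1) * (1 + nm z)) * Real.exp M := by rw [hsplit]
      _ ≤ C * ((1 + nm z) ^ (s - 1) * 2) * (Real.exp (2 * M) * Real.exp (Φ z)) :=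
          mul_le_mul (mul_le_mul_of_nonneg_left (mul_le_mul_of_nonneg_left (by linarith) hp) hC0)
            h2 (Real.exp_pos _).le (by positivity)
      _ = 2 * C * Real.exp (2 * M) * (1 + nm z) ^ (s - 1) * Real.exp (Φ z) := by ring
      _ ≤ (C * Real.exp M * (2 / A) + 2 * C * Real.exp (2 * M)) * (1 + nm z) ^ (s - 1) *
            Real.exp (Φ z) := by
          refine mul_le_mul_of_nonneg_right (mul_le_mul_of_nonneg_right ?_ hp) (Real.exp_pos _).le
          have : 0 ≤ C * Real.exp M * (2 / A) := by positivity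
          linarith

theorem main (hWD : S_WD) : S_JOP := by
  intro n P A η Φ hA hW l hl s hs D hD
  exact ⟨U l D, ⟨entire_U hWD hl hD.1, norm_U hA hW hl hs hD⟩, fun z => Nop_U hWD hl hD.1 z⟩

end Pool.Agent.Helper60.FN.JOP
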